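import Pool.Agent.Work.MP_b0c12c_px.QLoc

/-! # Theorem W (window patterns), local part: definitions and interface (helper37, note 2856)

Three kinds of sites: the sites of `KK` are killed (factor `1 - g`), the sites of `A` carry the
factor `g` built with the scales `s < J1`, all other sites carry no factor. The level of the sites
of `A` and the level of the killed sites are truncated separately (both at `2`). The sets `A` run
over an arbitrary family `AF` of sets with `k` elements, disjoint from `KK`. -/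

set_option autoImplicit false

namespace Pool.PP

open Finset

/-! ## Definitions -/

section defsW

variable {ι : Type} [Fintype ι] [DecidableEq ι] {J : ℕ}

/-- The level of the sites of `B`. -/
noncomputable def levB (B : Finset ι) (κ : ι → Option (Fin J)) : ℝ := ∑ h ∈ B, lev1 (κ h)

/-- Outside `KK` exactly the sites of `A` are active, with scales below `J1`. -/
def maW (KK A : Finset ι) (J1 : ℕ) (κ : ι → Option (Fin J)) : Prop :=
  mat KK A κ ∧ ∀ h ∈ A, ∀ s : Fin J, κ h = some s → (s : ℕ) < J1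

/-- The coefficients. -/
noncomputable def cW (KK A : Finset ι) (J1 : ℕ) (κ : ι → Option (Fin J)) : ℝ :=
  open Classical in if maW KK A J1 κ ∧ levB A κ ≤ 2 ∧ levB KK κ ≤ 2 then 1 else 0

/-- `∑ x s`, `s < J1`. -/
noncomputable def sXr (x : Fin J → ℝ) (J1 : ℕ) : ℝ :=
  ∑ s ∈ univ.filter (fun s : Fin J => (s : ℕ) < J1), x s

/-- `∑ 2 ^ (-s) x s`, `s < J1`. -/
noncomputable def sYr (x : Fin J → ℝ) (J1 : ℕ) : ℝ :=
  ∑ s ∈ univ.filter (fun s : Fin J => (s : ℕ) < J1), (1 / 2 : ℝ) ^ (s : ℕ) * x s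

/-- Mass of one set `A` with `k` elements together with the killed sites. -/
noncomputable def mW (x : Fin J → ℝ) (J1 : ℕ) (S KK : Finset ι) (k : ℕ) : ℝ :=
  sXr x J1 ^ k * (1 + sX x) ^ (KK ∩ S).card

/-- The number of the sets of the family inside `S`. -/
noncomputable def nA (AF : Finset (Finset ι)) (S : Finset ι) : ℝ :=
  ((AF.filter (fun A => A ⊆ S)).card : ℝ)

/-- The number of the sets of the family inside `S` which contain `h0`. -/
noncomputable def nA1 (AF : Finset (Finset ι)) (S : Finset ι) (h0 : ι) : ℝ :=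
  ((AF.filter (fun A => h0 ∈ A ∧ A ⊆ S)).card : ℝ)

/-- The family: `k` elements, disjoint from `KK`. -/
def Fam (AF : Finset (Finset ι)) (KK : Finset ι) (k : ℕ) : Prop :=
  ∀ A ∈ AF, A.card = k ∧ Disjoint A KK

variable {π : Type}

/-- The weight. -/
noncomputable def OmW (f : Fin J → Finset π → ℝ) (AF : Finset (Finset ι)) (S KK : Finset ι)
    (J1 : ℕ) (t : ι → Finset π) : ℝ :=
  ∑ A ∈ AF, PF (cW KK A J1) (tab f S t) ^ 2

/-- The weight at the free sites which are killed or neither killed nor in `A`. -/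
noncomputable def BdW (f : Fin J → Finset π → ℝ) (r : Finset π → ℝ) (AF : Finset (Finset ι))
    (S KK : Finset ι) (J1 : ℕ) (t : ι → Finset π) : ℝ :=
  ∑ A ∈ AF, (∑ m ∈ KK ∩ S, PF (cM (cW KK A J1) m) (tab f S t) ^ 2 * r (t m) +
    ∑ h ∈ S \ (KK ∪ A), PF (cW KK A J1) (tab f S t) ^ 2 * r (t h))

/-- The weight if the site `h0` is free. -/
noncomputable def PrW (f : Fin J → Finset π → ℝ) (AF : Finset (Finset ι)) (S KK : Finset ι)
    (J1 : ℕ) (h0 : ι) (t : ι → Finset π) : ℝ :=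
  ∑ A ∈ AF.filter (fun A => h0 ∈ A), PF (cM (cW KK A J1) h0) (tab f S t) ^ 2

end defsW

/-! ## Masses -/

/-- (WMA) Mass of the matchings, and the two Markov bounds. -/
def Stmt_WMA : Prop :=
  open Classical in
  ∀ (ι : Type) [Fintype ι] [DecidableEq ι] (J J1 : ℕ) (x : Fin J → ℝ) (S KK A : Finset ι),
    (∀ s, 0 ≤ x s) → Disjoint A KK →
    (∑ κ : ι → Option (Fin J), if maW KK A J1 κ then ym x S κ else 0) =
      (if A ⊆ S then mW x J1 S KK A.card else 0) ∧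
    (A ⊆ S → 0 < sXr x J1 →
      (∑ κ : ι → Option (Fin J), if maW KK A J1 κ ∧ 1 < levB A κ then ym x S κ else 0) ≤
        (A.card : ℝ) * (sYr x J1 / sXr x J1) * mW x J1 S KK A.card) ∧
    (A ⊆ S → ∀ R : ℝ, 0 < R →
      (∑ κ : ι → Option (Fin J), if maW KK A J1 κ ∧ R < levB KK κ then ym x S κ else 0) ≤
        ((KK ∩ S).card : ℝ) * sY x / R * mW x J1 S KK A.card)

/-- (WCK) The coefficients after removing a killed site. -/
def Stmt_WCK : Prop :=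
  ∀ (ι : Type) [Fintype ι] [DecidableEq ι] (J J1 : ℕ) (KK A : Finset ι) (m : ι)
    (κ : ι → Option (Fin J)), 0 < J → m ∈ KK → Disjoint A KK →
    0 ≤ cM (cW KK A J1) m κ ∧ cM (cW KK A J1) m κ ≤ 1 ∧
      (cM (cW KK A J1) m κ ≠ 0 → κ m = none ∧ maW KK A J1 κ ∧ levB A κ ≤ 2 ∧ levB KK κ ≤ 2 ∧
        1 < levB KK κ)

/-- (WCA) The coefficients after removing a site of `A`. -/
def Stmt_WCA : Prop :=
  ∀ (ι : Type) [Fintype ι] [DecidableEq ι] (J J1 : ℕ) (KK A : Finset ι) (h0 : ι)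
    (κ : ι → Option (Fin J)), 0 < J → J1 ≤ J → h0 ∈ A → Disjoint A KK →
    -1 ≤ cM (cW KK A J1) h0 κ ∧ cM (cW KK A J1) h0 κ ≤ 0 ∧
      (cM (cW KK A J1) h0 κ ≠ 0 →
        maW KK (A.erase h0) J1 κ ∧ levB (A.erase h0) κ ≤ 2 ∧ levB KK κ ≤ 2) ∧
      (maW KK (A.erase h0) J1 κ → levB (A.erase h0) κ ≤ 1 → levB KK κ ≤ 2 →
        cM (cW KK A J1) h0 κ = -((J1 : ℝ) / J))

/-- (WLV) Levels. -/
def Stmt_WLV : Prop :=
  ∀ (ι : Type) [Fintype ι] [DecidableEq ι] (J J1 : ℕ) (KK A : Finset ι)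
    (κ : ι → Option (Fin J)), Disjoint A KK → mat KK A κ →
    lev κ = levB A κ + levB KK κ ∧
    (cW KK A J1 κ ≠ 0 → lev κ ≤ 4)

/-! ## Independent sites -/

/-- (WI1) The mean of the weight. -/
def Stmt_WI1 : Prop :=
  ∀ (π ι : Type) [Fintype π] [DecidableEq π] [Fintype ι] [DecidableEq ι] (q : π → ℝ) (J J1 : ℕ)
    (f : Fin J → Finset π → ℝ) (AF : Finset (Finset ι)) (S KK : Finset ι) (k : ℕ),
    (∀ x, 0 ≤ q x) → (∀ x, q x ≤ 1) → Orth q f → Fam AF KK k →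
    EM q (OmW f AF S KK J1) ≤ nA AF S * mW (xs q f) J1 S KK k

/-- (WI2) The mean of the weight at the free sites outside `A`. -/
def Stmt_WI2 : Prop :=
  ∀ (π ι : Type) [Fintype π] [DecidableEq π] [Fintype ι] [DecidableEq ι] (q : π → ℝ) (J J1 : ℕ)
    (f : Fin J → Finset π → ℝ) (r : Finset π → ℝ) (AF : Finset (Finset ι)) (S KK : Finset ι)
    (k : ℕ), (∀ x, 0 ≤ q x) → (∀ x, q x ≤ 1) → Orth q f → 0 < J → (∀ T, 0 ≤ r T) →
    Fam AF KK k →
    EM q (BdW f r AF S KK J1) ≤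
      (((KK ∩ S).card : ℝ) * ((KK ∩ S).card * sY (xs q f)) + ((S \ KK).card : ℝ)) * E1 q r *
        (nA AF S * mW (xs q f) J1 S KK k)

/-- (WI3) The mean of the weight if the site `h0` is free. -/
def Stmt_WI3 : Prop :=
  ∀ (π ι : Type) [Fintype π] [DecidableEq π] [Fintype ι] [DecidableEq ι] (q : π → ℝ) (J J1 : ℕ)
    (f : Fin J → Finset π → ℝ) (AF : Finset (Finset ι)) (S KK : Finset ι) (k : ℕ) (h0 : ι),
    (∀ x, 0 ≤ q x) → (∀ x, q x ≤ 1) → Orth q f → 0 < J → J1 ≤ J → 0 < sXr (xs q f) J1 →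
    Fam AF KK (k + 1) → h0 ∉ KK →
    ((J1 : ℝ) / J) ^ 2 * (1 - (k : ℝ) * (sYr (xs q f) J1 / sXr (xs q f) J1) -
        ((KK ∩ S).card : ℝ) * sY (xs q f) / 2) * (nA1 AF S h0 * mW (xs q f) J1 S KK k) ≤
      EM q (PrW f AF S KK J1 h0)

/-- (WMJ) Majorants. -/
def Stmt_WMJ : Prop :=
  ∀ (π ι : Type) [Fintype π] [DecidableEq π] [Fintype ι] [DecidableEq ι] (J J1 : ℕ)
    (f : Fin J → Finset π → ℝ) (r : Finset π → ℝ) (AF : Finset (Finset ι)) (S KK : Finset ι)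
    (k : ℕ) (t : ι → Finset π), 0 < J → J1 ≤ J → (∀ T, 0 ≤ r T) → Fam AF KK k →
    0 ≤ OmW f AF S KK J1 t ∧ OmW f AF S KK J1 t ≤ (∏ h ∈ S, (1 + gt f (t h))) ^ 2 ∧
    0 ≤ BdW f r AF S KK J1 t ∧
      BdW f r AF S KK J1 t ≤ ∑ m ∈ S, (∏ h ∈ S.erase m, (1 + gt f (t h))) ^ 2 * r (t m) ∧
    ∀ h0, h0 ∉ KK → 0 ≤ PrW f AF S KK J1 h0 t ∧
      PrW f AF S KK J1 h0 t ≤ (∏ h ∈ S, (1 + gt f (t h))) ^ 2

/-- (WFM) The function with the free site `h0` does not see this site. -/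
def Stmt_WFM : Prop :=
  ∀ (π ι : Type) [Fintype π] [DecidableEq π] [Fintype ι] [DecidableEq ι] (J J1 : ℕ)
    (f : Fin J → Finset π → ℝ) (AF : Finset (Finset ι)) (S KK : Finset ι) (h0 : ι)
    (t : ι → Finset π) (a : Finset π),
    PrW f AF S KK J1 h0 (Function.update t h0 a) = PrW f AF S KK J1 h0 t

/-! ## The pointwise inequality -/

/-- (WPW) `P` is the set of all free sites, `P'` the set of the sites with a prime. -/
def Stmt_WPW : Prop :=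
  open Classical in
  ∀ (π ι : Type) [Fintype π] [DecidableEq π] [Fintype ι] [DecidableEq ι] (J J1 : ℕ)
    (f : Fin J → Finset π → ℝ) (r : Finset π → ℝ) (AF : Finset (Finset ι))
    (S KK P P' : Finset ι) (k m : ℕ) (t : ι → Finset π), 0 < J → 1 ≤ m →
    (∀ s, f s ∅ = 1) → r ∅ = 1 → (∀ T, 0 ≤ r T) → Fam AF KK k →
    P' ⊆ P → P ⊆ S → (∀ h ∈ P, t h = ∅) →
    ∑ h0 ∈ P' \ KK, PrW f AF S KK J1 h0 t - ((m : ℝ) - 1) * OmW f AF S KK J1 t -
        k * BdW f r AF S KK J1 t ≤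
      if (∃ A ∈ AF, P ⊆ A) ∧ m ≤ P'.card then k * OmW f AF S KK J1 t else 0

/-! ## The primes -/

/-- (WXB) The bounds of `Stmt_QXB` for the scales below `J1`. -/
def Stmt_WXB : Prop :=
  ∃ (C : ℝ) (z0 : ℕ), 1 ≤ C ∧ 2 ≤ z0 ∧ ∀ (z I J J1 : ℕ) (π : Type) [Fintype π] [DecidableEq π]
    (pr b : π → ℕ), z0 ≤ z → 1 ≤ J1 → J1 ≤ J → J ≤ I → PB z I pr b →
    (1 / C) * (2 ^ J1 * (1 / 2 : ℝ) ^ I / (J : ℝ) ^ 2) ≤
      sXr (xs (qc 0 pr) (fun s : Fin J => gs (qc 0 pr) b I s)) J1 ∧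
    sXr (xs (qc 0 pr) (fun s : Fin J => gs (qc 0 pr) b I s)) J1 ≤
      C * (2 ^ J1 * (1 / 2 : ℝ) ^ I / (J : ℝ) ^ 2) ∧
    0 ≤ sYr (xs (qc 0 pr) (fun s : Fin J => gs (qc 0 pr) b I s)) J1 ∧
    sYr (xs (qc 0 pr) (fun s : Fin J => gs (qc 0 pr) b I s)) J1 ≤
      C * (J1 * (1 / 2 : ℝ) ^ I / (J : ℝ) ^ 2)

/-- (LOCW) The local statement for the primes in `(z, z ^ (2 ^ I)]`. The functions are built with
`q = 1 / p`. -/
def Stmt_LOCW : Prop :=
  ∃ C : ℝ, 1 ≤ C ∧ ∀ (J J1 k : ℕ) (R ε : ℝ), 1 ≤ J1 → J1 ≤ J → 0 < R → 0 < ε →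
    C * R / J ≤ 1 / 4 → C * ((k : ℝ) + 1) * J1 / 2 ^ J1 ≤ 1 / 4 →
    ∃ (z0 : ℕ) (B : ℝ), 2 ≤ z0 ∧
    ∀ (z I : ℕ) (π ι : Type) [Fintype π] [DecidableEq π] [Fintype ι] [DecidableEq ι]
      (pr b : π → ℕ) (AF : Finset (Finset ι)) (S KK : Finset ι), z0 ≤ z → J ≤ I → PB z I pr b →
      (S.card : ℝ) * (1 / 2 : ℝ) ^ I ≤ R → Fintype.card ι ^ 4 * z0 ≤ z → Fam AF KK (k + 1) →
      EN (qc 0 pr) (OmW (fun s : Fin J => gs (qc 0 pr) b I s) AF S KK J1) ≤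
        nA AF S * mW (xs (qc 0 pr) (fun s : Fin J => gs (qc 0 pr) b I s)) J1 S KK (k + 1) + ε ∧
      EN (qc 0 pr)
        (fun t => OmW (fun s : Fin J => gs (qc 0 pr) b I s) AF S KK J1 t ^ 2) ≤ B ∧
      EN (qc 0 pr) (BdW (fun s : Fin J => gs (qc 0 pr) b I s) (rho b I) AF S KK J1) ≤
        C * (R ^ 2 / J + ((S \ KK).card : ℝ) * (1 / 2 : ℝ) ^ I) *
          (nA AF S *
            mW (xs (qc 0 pr) (fun s : Fin J => gs (qc 0 pr) b I s)) J1 S KK (k + 1)) + ε ∧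
      ∀ h0 ∉ KK,
        ((J1 : ℝ) / J) ^ 2 / 2 * (nA1 AF S h0 *
          mW (xs (qc 0 pr) (fun s : Fin J => gs (qc 0 pr) b I s)) J1 S KK k) -
            ε / (Fintype.card ι : ℝ) ≤
        EN (qc 1 pr) (fun t : {h : ι // h ≠ h0} → Finset π =>
          PrW (fun s : Fin J => gs (qc 0 pr) b I s) AF S KK J1 h0 (ext h0 t))

end Pool.PP
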