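import Pool.Agent.Work.MP_b0c12c_px.QTr
import Pool.Agent.Work.MP_b0c12c_pw.WLoc

/-! # Theorem W (window patterns), transfer, arithmetic and final statements (helper37) -/

set_option autoImplicit false

namespace Pool.PP

open Finset Filter

/-! ## Expansions -/

/-- (WEX) Expansions of the four functions of the main argument. -/
def Stmt_WEX : Prop :=
  ∀ (J J1 k : ℕ) (A : ℝ), 1 ≤ A → 1 ≤ J → J1 ≤ J → ∃ N : ℕ, ∀ (σ π ι : Type) [Fintype σ]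
    [DecidableEq σ] [Fintype π] [DecidableEq π] [Fintype ι] [DecidableEq ι] (pr : π → ℕ)
    (AF : Finset (Finset ι)) (KK : Finset ι) (f : Fin J → Finset π → ℝ) (r : Finset π → ℝ)
    (a : Fin J → Finset π → ℝ) (aρ : Finset π → ℝ) (D : ℝ), Fam AF KK k →
    (∀ x, 1 ≤ pr x) → 1 ≤ D → (∀ s U, |a s U| ≤ A) → (∀ U, |aρ U| ≤ A) →
    (∀ s U, a s U ≠ 0 → ∏ x ∈ U, (pr x : ℝ) ≤ D ^ ((1 / 2 : ℝ) ^ (s : ℕ))) →
    (∀ U, aρ U ≠ 0 → ∏ x ∈ U, (pr x : ℝ) ≤ D) →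
    (∀ s T, f s T = ∑ U ∈ T.powerset, a s U) → (∀ T, r T = ∑ U ∈ T.powerset, aρ U) →
    Ex (rr (σ := σ) pr) (fun t : ι → Finset (σ ⊕ π) => OmW f AF (Sset t) KK J1 (lg t))
      ((2 + (Fintype.card ι : ℝ)) ^ N) (2 ^ N) (D ^ 17) ∧
    Ex (rr (σ := σ) pr) (fun t : ι → Finset (σ ⊕ π) => OmW f AF (Sset t) KK J1 (lg t) ^ 2)
      ((2 + (Fintype.card ι : ℝ)) ^ N) (2 ^ N) (D ^ 17) ∧
    Ex (rr (σ := σ) pr) (fun t : ι → Finset (σ ⊕ π) => BdW f r AF (Sset t) KK J1 (lg t))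
      ((2 + (Fintype.card ι : ℝ)) ^ N) (2 ^ N) (D ^ 17) ∧
    ∀ h0, h0 ∉ KK →
      Ex (rr (σ := σ) pr) (fun t : {h : ι // h ≠ h0} → Finset (σ ⊕ π) =>
          PrW f AF (exS h0 (Sset t)) KK J1 h0 (ext h0 (lg t)))
        ((2 + (Fintype.card ι : ℝ)) ^ N) (2 ^ N) (D ^ 17)

/-! ## The weights at the integers and at the primes -/

section concrete

variable {H2 H1 : ℕ}

/-- The weight at the integer `n`. -/
noncomputable def omNW (w z I J J1 : ℕ) (KK : Finset (SH H2 H1))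
    (AF : Finset (Finset (SH H2 H1))) (n : ℕ) : ℝ :=
  OmW (fQ z I J) AF (Sset (tb (prQ w z I) (fun h : SH H2 H1 => (h : ℤ)) n)) KK J1
    (lg (tb (prQ w z I) (fun h : SH H2 H1 => (h : ℤ)) n))

/-- The bad weight at the integer `n`. -/
noncomputable def bdNW (w z I J J1 : ℕ) (KK : Finset (SH H2 H1))
    (AF : Finset (Finset (SH H2 H1))) (n : ℕ) : ℝ :=
  BdW (fQ z I J) (rQ z I) AF (Sset (tb (prQ w z I) (fun h : SH H2 H1 => (h : ℤ)) n)) KK J1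
    (lg (tb (prQ w z I) (fun h : SH H2 H1 => (h : ℤ)) n))

/-- The weight at the prime `p = n + h0`. -/
noncomputable def prNW (w z I J J1 : ℕ) (KK : Finset (SH H2 H1))
    (AF : Finset (Finset (SH H2 H1))) (h0 : SH H2 H1) (p : ℕ) : ℝ :=
  PrW (fQ z I J) AF
    (exS h0 (Sset (tb (prQ w z I) (fun h : {h : SH H2 H1 // h ≠ h0} => (h.1 : ℤ) - h0) p)))
    KK J1 h0
    (ext h0 (lg (tb (prQ w z I) (fun h : {h : SH H2 H1 // h ≠ h0} => (h.1 : ℤ) - h0) p)))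

/-- The total mass. -/
noncomputable def UW (w z I J J1 k : ℕ) (KK : Finset (SH H2 H1))
    (AF : Finset (Finset (SH H2 H1))) : ℝ :=
  avQ 0 w (fun ω => nA AF (swQ H2 H1 ω) * mW (xQ z I J) J1 (swQ H2 H1 ω) KK k)

/-- The integer `n` is good: for some `A` of the family all integers `n + h`, `h ∉ A`, have a
prime factor `≤ y`, and at least `m` of the integers `n + h`, `h ∈ A`, are primes. -/
def GdW (y m n : ℕ) (AF : Finset (Finset (SH H2 H1))) : Prop :=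
  ∃ A ∈ AF, m ≤ (A.filter (fun h : SH H2 H1 => ((n : ℤ) + h).toNat.Prime)).card ∧
    ∀ h : SH H2 H1, h ∉ A → ∃ p : ℕ, p.Prime ∧ p ≤ y ∧ (p : ℤ) ∣ (n : ℤ) + h

end concrete

/-- (WIN) At a prime `p = n + h0` the two descriptions of the table agree. -/
def Stmt_WIN : Prop :=
  ∀ (w z I J J1 H2 H1 : ℕ) (KK : Finset (SH H2 H1)) (AF : Finset (Finset (SH H2 H1)))
    (h0 : SH H2 H1) (n p : ℕ), 2 ≤ z → w ≤ z → (n : ℤ) + h0 = p → p.Prime → z ^ 2 ^ I < p →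
    prNW w z I J J1 KK AF h0 p =
      PrW (fQ z I J) AF (Sset (tb (prQ w z I) (fun h : SH H2 H1 => (h : ℤ)) n)) KK J1 h0
        (lg (tb (prQ w z I) (fun h : SH H2 H1 => (h : ℤ)) n))

/-- (WNW) The pointwise inequality at the integer `n`. -/
def Stmt_WNW : Prop :=
  open Classical in
  ∀ (w z I J J1 k m H2 H1 n : ℕ) (KK : Finset (SH H2 H1)) (AF : Finset (Finset (SH H2 H1))),
    2 ≤ z → w ≤ z → 1 ≤ J → J ≤ I → 1 ≤ m → Blk (dQ 0 z I) (bQ z I) I → z ^ 2 ^ I + H2 < n →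
    Fam AF KK k →
    (∑ h0 ∈ (univ \ KK).filter (fun h0 : SH H2 H1 => ((n : ℤ) + h0).toNat.Prime),
      prNW w z I J J1 KK AF h0 ((n : ℤ) + h0).toNat) -
      ((m : ℝ) - 1) * omNW w z I J J1 KK AF n - k * bdNW w z I J J1 KK AF n ≤
    if GdW (z ^ 2 ^ I) m n AF then k * omNW w z I J J1 KK AF n else 0

/-! ## The sums -/

/-- (WSA) The sums over all integers. -/
def Stmt_WSA : Prop :=
  ∃ C : ℝ, 1 ≤ C ∧ ∀ (J J1 k Θ : ℕ) (C2 R R2 ε : ℝ), 1 ≤ J1 → J1 ≤ J → 4 ≤ Θ → 0 < C2 →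
    0 < R → 0 < R2 → 0 < ε → C * R / J ≤ 1 / 4 → C * ((k : ℝ) + 1) * J1 / 2 ^ J1 ≤ 1 / 4 →
    ∃ B : ℝ, 0 < B ∧ ∀ᶠ L : ℝ in atTop, ∀ (H2 H1 x Y : ℕ) (KK : Finset (SH H2 H1))
      (AF : Finset (Finset (SH H2 H1))), (H2 : ℝ) ≤ C2 * L → (H1 : ℝ) ≤ C2 * L →
      Real.exp (L / 2) ≤ Y → Fam AF KK (k + 1) →
      (∀ ω : SPt (wL L) → ℕ, ((swQ H2 H1 ω).card : ℝ) * (1 / 2 : ℝ) ^ (iL Θ L) ≤ R) →
      (∀ ω : SPt (wL L) → ℕ, ((swQ H2 H1 ω \ KK).card : ℝ) * (1 / 2 : ℝ) ^ (iL Θ L) ≤ R2) →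
      ∑ n ∈ Ioc x (x + Y), omNW (wL L) (zL L) (iL Θ L) J J1 KK AF n ≤
        Y * (UW (wL L) (zL L) (iL Θ L) J J1 (k + 1) KK AF + ε) ∧
      ∑ n ∈ Ioc x (x + Y), omNW (wL L) (zL L) (iL Θ L) J J1 KK AF n ^ 2 ≤ Y * B ∧
      ∑ n ∈ Ioc x (x + Y), bdNW (wL L) (zL L) (iL Θ L) J J1 KK AF n ≤
        Y * (C * (R ^ 2 / J + R2) * UW (wL L) (zL L) (iL Θ L) J J1 (k + 1) KK AF + ε)

/-- (WSP) The sums over the primes of `(X, 2X]`. -/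
def Stmt_WSP : Prop :=
  ∃ C : ℝ, 1 ≤ C ∧ ∀ (J J1 k Θ : ℕ) (C2 R ε : ℝ), 1 ≤ J1 → J1 ≤ J → 4 ≤ Θ → 0 < C2 → 0 < R →
    0 < ε → C * R / J ≤ 1 / 4 → C * ((k : ℝ) + 1) * J1 / 2 ^ J1 ≤ 1 / 4 →
    ∀ᶠ X : ℕ in atTop, ∀ (H2 H1 : ℕ) (KK : Finset (SH H2 H1))
      (AF : Finset (Finset (SH H2 H1))), (H2 : ℝ) ≤ C2 * Real.log X →
      (H1 : ℝ) ≤ C2 * Real.log X → Fam AF KK (k + 1) →
      (∀ ω : SPt (wL (Real.log X)) → ℕ,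
        ((swQ H2 H1 ω).card : ℝ) * (1 / 2 : ℝ) ^ (iL Θ (Real.log X)) ≤ R) →
      (((Ioc X (2 * X)).filter Nat.Prime).card : ℝ) *
          (∏ y : SPt (wL (Real.log X)), (y : ℝ) / ((y : ℝ) - 1)) *
          (((J1 : ℝ) / J) ^ 2 * ((k : ℝ) + 1) /
              (2 * sXr (xQ (zL (Real.log X)) (iL Θ (Real.log X)) J) J1) *
            UW (wL (Real.log X)) (zL (Real.log X)) (iL Θ (Real.log X)) J J1 (k + 1) KK AF - ε) -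
          ε * X ≤
        ∑ h0 ∈ univ \ KK, ∑ p ∈ (Ioc X (2 * X)).filter Nat.Prime,
          prNW (wL (Real.log X)) (zL (Real.log X)) (iL Θ (Real.log X)) J J1 KK AF h0 p

/-- (WSX) Bounds for the sum of the `x s`, `s < J1`. -/
def Stmt_WSX : Prop :=
  ∃ C : ℝ, 1 ≤ C ∧ ∀ J J1 Θ : ℕ, 1 ≤ J1 → J1 ≤ J → 1 ≤ Θ → ∀ᶠ L : ℝ in atTop,
    (1 / C) * (2 ^ J1 * (Θ * (Real.log L / L)) / (J : ℝ) ^ 2) ≤
      sXr (xQ (zL L) (iL Θ L) J) J1 ∧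
    sXr (xQ (zL L) (iL Θ L) J) J1 ≤ C * (2 ^ J1 * (Θ * (Real.log L / L)) / (J : ℝ) ^ 2)

/-! ## The windows -/

/-- The window `j`. -/
noncomputable def wiW {K : ℕ} (β : Fin K → ℝ) (δ L : ℝ) (H2 H1 : ℕ) (j : Fin K) :
    Finset (SH H2 H1) :=
  univ.filter (fun h => |((h : ℤ) : ℝ) - β j * L| ≤ δ * L)

/-- The killed shifts are the shifts outside the windows. -/
noncomputable def KW {K : ℕ} (β : Fin K → ℝ) (δ L : ℝ) (H2 H1 : ℕ) : Finset (SH H2 H1) :=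
  univ.filter (fun h => ∀ j, h ∉ wiW β δ L H2 H1 j)

/-- The transversals: one shift from every window. -/
noncomputable def AW {K : ℕ} (β : Fin K → ℝ) (δ L : ℝ) (H2 H1 : ℕ) :
    Finset (Finset (SH H2 H1)) :=
  (Fintype.piFinset (wiW β δ L H2 H1)).image (fun a => univ.image a)

/-- (WTV) The family of the transversals. -/
def Stmt_WTV : Prop :=
  ∀ (K : ℕ) (β : Fin K → ℝ) (δ L : ℝ) (H2 H1 : ℕ), 0 < L →
    (∀ i j, i ≠ j → 2 * δ < |β i - β j|) →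
    Fam (AW β δ L H2 H1) (KW β δ L H2 H1) K ∧
    (∀ S, nA (AW β δ L H2 H1) S = ∏ j, ((wiW β δ L H2 H1 j ∩ S).card : ℝ)) ∧
    ∀ S : Finset (SH H2 H1), ((S \ KW β δ L H2 H1).card : ℝ) ≤
      ∑ j, ((S.filter (fun h : SH H2 H1 => |((h : ℤ) : ℝ) - β j * L| ≤ δ * L)).card : ℝ)

/-- (WSC) The upper bound sieve in a short window: the constant is linear in `δ`. -/
def Stmt_WSC : Prop :=
  ∃ C : ℝ, 1 ≤ C ∧ ∀ δ : ℝ, 0 < δ → ∀ᶠ L : ℝ in atTop, ∀ (H2 H1 : ℕ) (c : ℝ)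
    (ω : SPt (wL L) → ℕ),
    (((swQ H2 H1 ω).filter (fun h : SH H2 H1 => |((h : ℤ) : ℝ) - c| ≤ δ * L)).card : ℝ) ≤
      C * δ * (L / Real.log L)

/-- (WMS) The probability that `K` given multiples of `M` survive. -/
def Stmt_WMS : Prop :=
  open Classical in
  ∀ K : ℕ, ∃ (M : ℕ) (c : ℝ), 0 < M ∧ 0 < c ∧ ∀ (w H2 H1 : ℕ) (a : Fin K → SH H2 H1),
    (∀ j, (M : ℤ) ∣ (a j : ℤ)) →
    c * (∏ y : SPt w, (1 - 1 / (y : ℝ))) ^ K ≤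
      avQ 0 w (fun ω => if ∀ j, a j ∈ swQ H2 H1 ω then (1 : ℝ) else 0)

/-- (WMC) The number of the multiples of `M` in a window. -/
def Stmt_WMC : Prop :=
  ∀ (M K : ℕ) (β : Fin K → ℝ) (δ b : ℝ), 0 < M → 0 < δ → (∀ j, |β j| + δ < b) →
    ∀ᶠ L : ℝ in atTop, ∀ H2 H1 : ℕ, b * L ≤ H2 → b * L ≤ H1 → ∀ j,
      δ * L / M ≤
        (((wiW β δ L H2 H1 j).filter (fun h : SH H2 H1 => (M : ℤ) ∣ (h : ℤ))).card : ℝ)

/-- (WUL) Lower bound for the total mass. -/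
def Stmt_WUL : Prop :=
  ∀ (J J1 k Θ : ℕ) (β : Fin (k + 1) → ℝ) (δ b : ℝ), 1 ≤ J1 → J1 ≤ J → 1 ≤ Θ → 0 < δ →
    (∀ i j, i ≠ j → 2 * δ < |β i - β j|) → (∀ j, |β j| + δ < b) → ∃ c : ℝ, 0 < c ∧
    ∀ᶠ L : ℝ in atTop, ∀ H2 H1 : ℕ, b * L ≤ H2 → b * L ≤ H1 →
      c ≤ UW (wL L) (zL L) (iL Θ L) J J1 (k + 1) (KW β δ L H2 H1) (AW β δ L H2 H1)

/-- (WPM) Choice of the parameters. -/
def Stmt_WPM : Prop :=
  ∀ (C c : ℝ) (m Θ : ℕ), 1 ≤ C → 0 < c → 1 ≤ Θ → ∃ J1 k : ℕ, 1 ≤ J1 ∧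
    C * ((k : ℝ) + 1) * J1 / 2 ^ J1 ≤ 1 / 4 ∧
    (m : ℝ) + 1 ≤ c * (((k : ℝ) + 1) * (J1 : ℝ) ^ 2 / (2 ^ J1 * Θ))

/-! ## The good integers and the final statement -/

/-- The good integers of `(X, 2X]`. -/
noncomputable def gdW {K : ℕ} (β : Fin K → ℝ) (δ b : ℝ) (y m X : ℕ) : Finset ℕ :=
  open Classical in (Ioc X (2 * X)).filter (fun n =>
    GdW y m n (AW β δ (Real.log X) ⌈b * Real.log X⌉₊ ⌈b * Real.log X⌉₊))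

/-- (WGD) The good integers have positive density. -/
def Stmt_WGD : Prop :=
  ∀ m Θ : ℕ, 1 ≤ m → 4 ≤ Θ → ∃ k : ℕ, ∀ (β : Fin (k + 1) → ℝ) (b : ℝ),
    Function.Injective β → (∀ j, |β j| < b) →
    ∃ δ0 : ℝ, 0 < δ0 ∧ ∀ δ : ℝ, 0 < δ → δ ≤ δ0 → ∃ c : ℝ, 0 < c ∧ ∀ᶠ X : ℕ in atTop,
      c * X ≤ ((gdW β δ b (zL (Real.log X) ^ 2 ^ iL Θ (Real.log X)) m X).card : ℝ)

/-- (WFI) THEOREM W. -/
def Stmt_WFI : Prop :=
  open Classical in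
  ∀ (m : ℕ) (eps : ℝ), 0 < eps → ∃ K : ℕ, ∀ (β : Fin K → ℝ) (Lam del : ℝ),
    Function.Injective β → 0 < del → ∃ c : ℝ, 0 < c ∧ ∀ᶠ X : ℕ in atTop,
    c * X ≤ (((Icc 1 X).filter (fun n : ℕ =>
      ∃ a : Fin K → ℕ, (∀ j, |(a j : ℝ) - n - β j * Real.log X| ≤ del * Real.log X) ∧
        m ≤ (univ.filter (fun j => (a j).Prime)).card ∧
        ∀ q : ℕ, |(q : ℝ) - n| ≤ Lam * Real.log X → (∀ j, q ≠ a j) →
          ∃ p : ℕ, p.Prime ∧ (p : ℝ) ≤ (X : ℝ) ^ eps ∧ p ∣ q)).card : ℝ)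

end Pool.PP
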